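import Pool.Agent.W37.RK.BL1

/-!
Bilinear sums of Jacobi symbols: the core estimate.
-/

set_option autoImplicit false

namespace W37.RK
open Finset Pool.Agent.W262.RK

theorem Jr_mul (a b n : ℕ) : Jr ((a * b : ℕ) : ℤ) n = Jr a n * Jr b n := by
  unfold Jr
  push_cast
  rw [jacobiSym.mul_left]
  push_cast
  rfl

theorem Jr_abs (a : ℤ) (n : ℕ) : |Jr a n| ≤ 1 := by
  unfold Jr
  rcases jacobiSym.trichotomy a n with h | h | h <;> rw [h] <;> simp

section core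

variable (N : ℕ) (b : ℕ → ℝ)

/-- the inner sum -/
noncomputable def SS (m : ℕ) : ℝ := ∑ n ∈ Ioc N (2 * N), b n * Jr n m

/-- triples -/
def TT : Finset (ℕ × ℕ × ℕ) := Ioc N (2 * N) ×ˢ Ioc N (2 * N) ×ˢ Ioc N (2 * N)

/-- coefficients of the cube -/
noncomputable def cc (l : ℕ) : ℝ :=
  ∑ t ∈ (TT N).filter (fun t => t.1 * t.2.1 * t.2.2 = l), b t.1 * b t.2.1 * b t.2.2

theorem SS_cube (m : ℕ) :
    SS N b m ^ 3 = ∑ l ∈ range (8 * N ^ 3 + 1), cc N b l * Jr l m := by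
  have h1 : SS N b m ^ 3 = ∑ t ∈ TT N, (b t.1 * b t.2.1 * b t.2.2) *
      Jr ((t.1 * t.2.1 * t.2.2 : ℕ) : ℤ) m := by
    unfold TT
    rw [sum_product]
    simp_rw [sum_product]
    have : SS N b m ^ 3 = SS N b m * (SS N b m * SS N b m) := by ring
    rw [this]
    nth_rewrite 1 [SS]
    rw [sum_mul]
    refine sum_congr rfl fun n1 _ => ?_
    nth_rewrite 1 [SS]
    rw [sum_mul, mul_sum]
    refine sum_congr rfl fun n2 _ => ?_
    rw [SS, mul_sum, mul_sum]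
    refine sum_congr rfl fun n3 _ => ?_
    rw [Jr_mul, Jr_mul]
    ring
  rw [h1, ← sum_fiberwise_of_maps_to (s := TT N) (t := range (8 * N ^ 3 + 1))
    (g := fun t => t.1 * t.2.1 * t.2.2)]
  · refine sum_congr rfl fun l _ => ?_
    rw [cc, sum_mul]
    refine sum_congr rfl fun t ht => ?_
    rw [mem_filter] at ht
    rw [ht.2]
  · intro t ht
    simp only [TT, mem_product, mem_Ioc] at ht
    rw [mem_range, Nat.lt_succ_iff]
    calc t.1 * t.2.1 * t.2.2 ≤ (2 * N) * (2 * N) * (2 * N) :=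
          Nat.mul_le_mul (Nat.mul_le_mul ht.1.2 ht.2.1.2) ht.2.2.2
      _ = 8 * N ^ 3 := by ring

theorem cc_abs (hb : ∀ n, |b n| ≤ 1) (l : ℕ) : |cc N b l| ≤ (l.divisors.card : ℝ) ^ 2 := by
  calc |cc N b l| ≤ ∑ t ∈ (TT N).filter (fun t => t.1 * t.2.1 * t.2.2 = l),
        |b t.1 * b t.2.1 * b t.2.2| := abs_sum_le_sum_abs _ _
    _ ≤ ∑ t ∈ (TT N).filter (fun t => t.1 * t.2.1 * t.2.2 = l), 1 := by
        refine sum_le_sum fun t _ => ?_
        rw [abs_mul, abs_mul]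
        have h1 := hb t.1
        have h2 := hb t.2.1
        have h3 := hb t.2.2
        have : |b t.1| * |b t.2.1| ≤ 1 := mul_le_one₀ h1 (abs_nonneg _) h2
        exact mul_le_one₀ this (abs_nonneg _) h3
    _ = (((TT N).filter (fun t => t.1 * t.2.1 * t.2.2 = l)).card : ℝ) := by simp
    _ ≤ _ := card_rep3 (Ioc N (2 * N)) l (fun n hn => by rw [mem_Ioc] at hn; omega)

theorem sum_cc (hb : ∀ n, |b n| ≤ 1) :
    ∑ l ∈ range (8 * N ^ 3 + 1), cc N b l ^ 2 ≤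
      (8 * N ^ 3 : ℕ) * (1 + Real.log (8 * N ^ 3 : ℕ)) ^ 16 := by
  have h0 : ∀ l, cc N b l ^ 2 ≤ (l.divisors.card : ℝ) ^ 4 := by
    intro l
    have := cc_abs N b hb l
    rw [← sq_abs]
    calc |cc N b l| ^ 2 ≤ ((l.divisors.card : ℝ) ^ 2) ^ 2 :=
          pow_le_pow_left₀ (abs_nonneg _) this 2
      _ = _ := by ring
  calc ∑ l ∈ range (8 * N ^ 3 + 1), cc N b l ^ 2
      ≤ ∑ l ∈ range (8 * N ^ 3 + 1), (l.divisors.card : ℝ) ^ 4 := sum_le_sum fun l _ => h0 l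
    _ = ∑ l ∈ Icc 1 (8 * N ^ 3), (l.divisors.card : ℝ) ^ 4 := by
        rw [range_eq_Ico, sum_eq_sum_Ico_succ_bot (by omega)]
        simp only [Nat.divisors_zero, card_empty]
        norm_num
        rfl
    _ ≤ _ := sum_card_pow 4 _

theorem core (h : LS) (M : ℕ) (a : ℕ → ℝ) (hM : 1 ≤ M) (hMN : M ≤ N) (ha : ∀ n, |a n| ≤ 1)
    (hb : ∀ n, |b n| ≤ 1) (ha' : ∀ m, a m ≠ 0 → Odd m ∧ Squarefree m) :
    |∑ m ∈ Ioc M (2 * M), ∑ n ∈ Ioc N (2 * N), a m * b n * Jr n m| ≤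
      192 * (Real.log (4 * M * N)) ^ 3 * (M * N) * (M : ℝ) ^ (-(1 / 6 : ℝ)) := by
  classical
  set D := (Ioc M (2 * M)).filter (fun m => Odd m ∧ Squarefree m) with hD
  have hcard : D.card ≤ M := by
    refine (card_filter_le _ _).trans ?_
    simp; omega
  set L : ℝ := 1 + Real.log (8 * N ^ 3 : ℕ) with hL
  have hN1 : 1 ≤ N := hM.trans hMN
  have hN1' : (1 : ℝ) ≤ N := by exact_mod_cast hN1
  have hM1' : (1 : ℝ) ≤ M := by exact_mod_cast hM
  have hMN' : (M : ℝ) ≤ N := by exact_mod_cast hMN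
  have hL1 : 1 ≤ L := by
    have : 0 ≤ Real.log (8 * N ^ 3 : ℕ) := Real.log_natCast_nonneg _
    linarith
  have h1 : |∑ m ∈ Ioc M (2 * M), ∑ n ∈ Ioc N (2 * N), a m * b n * Jr n m| ≤
      ∑ m ∈ D, |SS N b m| := by
    have e1 : ∑ m ∈ Ioc M (2 * M), ∑ n ∈ Ioc N (2 * N), a m * b n * Jr n m =
        ∑ m ∈ D, a m * SS N b m := by
      rw [hD, sum_filter]
      refine sum_congr rfl fun m _ => ?_
      split_ifs with hm
      · rw [SS, mul_sum]
        refine sum_congr rfl fun n _ => by ring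
      · have : a m = 0 := by
          by_contra hc
          exact hm (ha' m hc)
        simp [this]
    rw [e1]
    refine (abs_sum_le_sum_abs _ _).trans (sum_le_sum fun m _ => ?_)
    rw [abs_mul]
    calc |a m| * |SS N b m| ≤ 1 * |SS N b m| :=
          mul_le_mul_of_nonneg_right (ha m) (abs_nonneg _)
      _ = _ := one_mul _
  have h2 : ∑ m ∈ D, |SS N b m| ^ 6 ≤ 104 * (N : ℝ) ^ 6 * L ^ 16 := by
    have h3 := h D (8 * N ^ 3 + 1) (2 * M) (cc N b) (by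
      intro d hd
      rw [hD, mem_filter, mem_Ioc] at hd
      exact ⟨hd.2.1, hd.2.2, hd.1.2⟩)
    have h4 : ∀ m, |SS N b m| ^ 6 =
        (∑ l ∈ range (8 * N ^ 3 + 1), cc N b l * Jr l m) ^ 2 := by
      intro m
      rw [← SS_cube, ← pow_mul, show (6 : ℕ) = 2 * 3 by norm_num, pow_mul, sq_abs, ← pow_mul,
        show 3 * 2 = 2 * 3 by norm_num]
    simp_rw [h4]
    refine h3.trans ?_
    have h5 := sum_cc N b hb
    have h6 : ((8 * N ^ 3 + 1 : ℕ) : ℝ) + (D.card : ℝ) * ((2 * M : ℕ) : ℝ) ^ 2 ≤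
        13 * (N : ℝ) ^ 3 := by
      push_cast
      have h7 : (D.card : ℝ) ≤ N := by exact_mod_cast hcard.trans hMN
      have h8 : (D.card : ℝ) * (2 * (M : ℝ)) ^ 2 ≤ N * (2 * (N : ℝ)) ^ 2 :=
        mul_le_mul h7 (pow_le_pow_left₀ (by positivity) (by linarith) 2) (by positivity)
          (by positivity)
      have h9 : (1 : ℝ) ≤ (N : ℝ) ^ 3 := one_le_pow₀ hN1'
      nlinarith
    have h10 : (0 : ℝ) ≤ ∑ l ∈ range (8 * N ^ 3 + 1), cc N b l ^ 2 :=
      sum_nonneg fun _ _ => sq_nonneg _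
    calc _ ≤ (13 * (N : ℝ) ^ 3) * ((8 * N ^ 3 : ℕ) * L ^ 16) :=
          mul_le_mul h6 h5 h10 (by positivity)
      _ = _ := by push_cast; ring
  have h3 : (∑ m ∈ D, |SS N b m|) ^ 6 ≤ (M : ℝ) ^ 5 * (104 * (N : ℝ) ^ 6 * L ^ 16) := by
    have h4 := pow_sum_div_card_le_sum_pow (s := D) (f := fun m => |SS N b m|)
      (fun _ _ => abs_nonneg _) 5
    rcases Nat.eq_zero_or_pos D.card with h0 | h0
    · rw [card_eq_zero] at h0
      rw [h0]; simp; positivity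
    have h0' : (0 : ℝ) < D.card := by exact_mod_cast h0
    rw [div_le_iff₀ (by positivity)] at h4
    calc (∑ m ∈ D, |SS N b m|) ^ 6 ≤ (∑ m ∈ D, |SS N b m| ^ 6) * (D.card : ℝ) ^ 5 := h4
      _ ≤ (104 * (N : ℝ) ^ 6 * L ^ 16) * (M : ℝ) ^ 5 := by
          apply mul_le_mul h2 _ (by positivity) (by positivity)
          apply pow_le_pow_left₀ (by positivity)
          exact_mod_cast hcard
      _ = _ := by ring
  have h4 : ∑ m ∈ D, |SS N b m| ≤ 3 * L ^ 3 * (M * N) * (M : ℝ) ^ (-(1 / 6 : ℝ)) := by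
    apply le_of_pow_le_pow_left₀ (n := 6) (by norm_num) (by positivity)
    refine h3.trans ?_
    have h5 : ((M : ℝ) ^ (-(1 / 6 : ℝ))) ^ 6 = (M : ℝ)⁻¹ := by
      rw [← Real.rpow_natCast, ← Real.rpow_mul (by positivity)]
      norm_num
      rw [Real.rpow_neg_one]
    have h6 : (3 * L ^ 3 * (M * N) * (M : ℝ) ^ (-(1 / 6 : ℝ))) ^ 6 =
        729 * L ^ 18 * ((M : ℝ) ^ 5 * N ^ 6) * (M * ((M : ℝ) ^ (-(1 / 6 : ℝ))) ^ 6) := by ring
    rw [h6, h5, mul_inv_cancel₀ (by positivity), mul_one]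
    have h7 : L ^ 16 ≤ L ^ 18 := pow_le_pow_right₀ hL1 (by norm_num)
    have h8 : (0 : ℝ) ≤ (M : ℝ) ^ 5 * N ^ 6 := by positivity
    have h9 : (0 : ℝ) ≤ L ^ 18 := by positivity
    calc (M : ℝ) ^ 5 * (104 * (N : ℝ) ^ 6 * L ^ 16) = 104 * ((M : ℝ) ^ 5 * N ^ 6) * L ^ 16 := by
          ring
      _ ≤ 104 * ((M : ℝ) ^ 5 * N ^ 6) * L ^ 18 := mul_le_mul_of_nonneg_left h7 (by positivity)
      _ ≤ 729 * ((M : ℝ) ^ 5 * N ^ 6) * L ^ 18 := by
          apply mul_le_mul_of_nonneg_right _ h9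
          apply mul_le_mul_of_nonneg_right _ h8
          norm_num
      _ = _ := by ring
  have h5 : L ≤ 4 * Real.log (4 * M * N) := by
    have h6 : Real.log (8 * N ^ 3 : ℕ) ≤ 3 * Real.log (4 * M * N) := by
      have : Real.log (8 * N ^ 3 : ℕ) = 3 * Real.log (2 * N) := by
        push_cast
        rw [show (8 : ℝ) * N ^ 3 = (2 * N) ^ 3 by ring, Real.log_pow]
        norm_num
      rw [this]
      apply mul_le_mul_of_nonneg_left _ (by norm_num)
      apply Real.log_le_log (by positivity)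
      nlinarith
    have h7 : 1 ≤ Real.log (4 * M * N) := by
      rw [Real.le_log_iff_exp_le (by positivity)]
      have := Real.exp_one_lt_d9
      nlinarith
    rw [hL]
    linarith
  refine (h1.trans h4).trans ?_
  have h6 : L ^ 3 ≤ (4 * Real.log (4 * M * N)) ^ 3 :=
    pow_le_pow_left₀ (by linarith) h5 3
  have h7 : (0 : ℝ) ≤ (M * N) * (M : ℝ) ^ (-(1 / 6 : ℝ)) := by positivity
  calc 3 * L ^ 3 * (M * N) * (M : ℝ) ^ (-(1 / 6 : ℝ))
      = 3 * L ^ 3 * ((M * N) * (M : ℝ) ^ (-(1 / 6 : ℝ))) := by ring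
    _ ≤ 3 * (4 * Real.log (4 * M * N)) ^ 3 * ((M * N) * (M : ℝ) ^ (-(1 / 6 : ℝ))) := by
        apply mul_le_mul_of_nonneg_right _ h7
        apply mul_le_mul_of_nonneg_left h6 (by norm_num)
    _ = _ := by ring

end core

/-- the quadratic character modulo 4 as a real number -/
def ch (m : ℕ) : ℝ := ((ZMod.χ₄ (m : ZMod 4) : ℤ) : ℝ)

theorem ch_abs (m : ℕ) : |ch m| ≤ 1 := by
  unfold ch
  have : ∀ x : ZMod 4, |((ZMod.χ₄ x : ℤ) : ℝ)| ≤ 1 := by
    intro x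
    have : (ZMod.χ₄ x : ℤ) = 0 ∨ (ZMod.χ₄ x : ℤ) = 1 ∨ (ZMod.χ₄ x : ℤ) = -1 := by
      revert x; decide
    rcases this with h | h | h <;> rw [h] <;> simp
  exact this _

theorem recip (m n : ℕ) (hm : Odd m) (hn : Odd n) :
    Jr m n = 1 / 2 * (1 + ch m + ch n - ch m * ch n) * Jr n m := by
  have h1 : jacobiSym m n = qrSign m n * jacobiSym n m := by
    rw [qrSign.symm hm hn]
    exact jacobiSym.quadratic_reciprocity' hm hn
  unfold Jr
  rw [h1]
  unfold ch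
  rcases Nat.odd_mod_four_iff.mp (Nat.odd_iff.mp hm) with h | h
  · have h2 : ZMod.χ₄ (m : ZMod 4) = 1 := ZMod.χ₄_nat_one_mod_four h
    rw [qrSign, h2, jacobiSym.one_left]
    push_cast
    ring
  · have h2 : ZMod.χ₄ (m : ZMod 4) = -1 := ZMod.χ₄_nat_three_mod_four h
    rw [qrSign, h2, jacobiSym.at_neg_one hn]
    push_cast
    ring

theorem bl_of (h : LS) : BL := by
  refine ⟨384, 3, fun M N hM hN a b ha hb ha' hb' => ?_⟩
  have hlog : 0 ≤ Real.log (4 * M * N) := by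
    apply Real.log_nonneg
    have : (1 : ℝ) ≤ M := by exact_mod_cast hM
    have : (1 : ℝ) ≤ N := by exact_mod_cast hN
    nlinarith
  rcases le_total M N with hMN | hMN
  · -- reciprocity
    have hch : ∀ c : ℕ → ℝ, (∀ n, |c n| ≤ 1) → ∀ n, |c n * ch n| ≤ 1 := by
      intro c hc n
      rw [abs_mul]
      exact mul_le_one₀ (hc n) (abs_nonneg _) (ch_abs n)
    have hsup : ∀ c : ℕ → ℝ, (∀ m, c m ≠ 0 → Odd m ∧ Squarefree m) →
        ∀ m, c m * ch m ≠ 0 → Odd m ∧ Squarefree m := by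
      intro c hc m hm
      exact hc m (left_ne_zero_of_mul hm)
    have e : ∑ m ∈ Ioc M (2 * M), ∑ n ∈ Ioc N (2 * N), a m * b n * Jr m n =
        1 / 2 * ((∑ m ∈ Ioc M (2 * M), ∑ n ∈ Ioc N (2 * N), a m * b n * Jr n m) +
          (∑ m ∈ Ioc M (2 * M), ∑ n ∈ Ioc N (2 * N), (a m * ch m) * b n * Jr n m) +
          (∑ m ∈ Ioc M (2 * M), ∑ n ∈ Ioc N (2 * N), a m * (b n * ch n) * Jr n m) -
          (∑ m ∈ Ioc M (2 * M), ∑ n ∈ Ioc N (2 * N), (a m * ch m) * (b n * ch n) * Jr n m)) := by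
      rw [← sum_add_distrib, ← sum_add_distrib, ← sum_sub_distrib, mul_sum]
      refine sum_congr rfl fun m _ => ?_
      rw [← sum_add_distrib, ← sum_add_distrib, ← sum_sub_distrib, mul_sum]
      refine sum_congr rfl fun n _ => ?_
      by_cases h1 : a m = 0
      · simp [h1]
      by_cases h2 : b n = 0
      · simp [h2]
      rw [recip m n (ha' m h1).1 (hb' n h2).1]
      ring
    rw [e]
    have c1 := core N b h M a hM hMN ha hb ha'
    have c2 := core N b h M (fun m => a m * ch m) hM hMN (hch a ha) hb (hsup a ha')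
    have c3 := core N (fun n => b n * ch n) h M a hM hMN ha (hch b hb) ha'
    have c4 := core N (fun n => b n * ch n) h M (fun m => a m * ch m) hM hMN (hch a ha) (hch b hb)
      (hsup a ha')

    have hpos : 0 ≤ 384 * (Real.log (4 * M * N)) ^ 3 * (M * N) * (N : ℝ) ^ (-(1 / 6 : ℝ)) := by
      positivity
    rw [abs_le] at c1 c2 c3 c4 ⊢
    constructor <;> nlinarith [c1.1, c1.2, c2.1, c2.2, c3.1, c3.2, c4.1, c4.2]
  · have e : ∑ m ∈ Ioc M (2 * M), ∑ n ∈ Ioc N (2 * N), a m * b n * Jr m n =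
        ∑ n ∈ Ioc N (2 * N), ∑ m ∈ Ioc M (2 * M), b n * a m * Jr m n := by
      rw [sum_comm]
      refine sum_congr rfl fun n _ => sum_congr rfl fun m _ => by ring
    rw [e]
    have c1 := core M a h N b hN hMN hb ha hb'
    refine c1.trans ?_
    have e2 : (4 : ℝ) * N * M = 4 * M * N := by ring
    rw [e2]
    have hp1 : 0 ≤ (Real.log (4 * M * N)) ^ 3 * (M * N) * (N : ℝ) ^ (-(1 / 6 : ℝ)) := by
      positivity
    have hp2 : 0 ≤ (Real.log (4 * M * N)) ^ 3 * (M * N) * (M : ℝ) ^ (-(1 / 6 : ℝ)) := by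
      positivity
    nlinarith

end W37.RK
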